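import Pool.Agent.ElemEmb87.Universal

/-! There is one complete theory `T`, in a language with one binary and countably many unary
relation symbols, such that every analytic quasi-order on a standard Borel space is Borel equivalent
to elementary embeddability on some Borel isomorphism invariant class of models of `T` with universe
the natural numbers.  The class consists of rigid structures, every embedding between two of its
members is elementary, and the two reductions are inverse to each other up to isomorphism.

The definitions used in the statement (`Code ar`, `L`, `Str`, `IsAnalytic`, `treeRel`) are in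
`Pool.Agent.ElemEmb.Basic`, `Pool.Agent.ElemEmb.Tree`, `Pool.Agent.ElemEmb87.Strong` and
`Pool.Agent.ElemEmb87.Universal`. -/

set_option autoImplicit false

open FirstOrder
open Pool.Agent.ElemEmb Pool.Agent.ElemEmb87

namespace Pool.Agent.Results.MP_094aee_lc.OneTheory

universe w

theorem result :
    ∃ T : L.Theory, T.IsComplete ∧
      ∀ (X : Type w) [MeasurableSpace X] [StandardBorelSpace X] (R : X → X → Prop),
        (∀ x, R x x) → (∀ x y z, R x y → R y z → R x z) →
        IsAnalytic {p : X × X | R p.1 p.2} →
        ∃ (B : Set (Code ar)) (f : X → B) (g : B → X) (h : B → ℕ → ℕ),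
          -- `B` is Borel, `f`, `g`, `h` are Borel maps, `g` is a left inverse of `f`, and `h u` is
          -- an isomorphism of `u` onto `f (g u)`
          MeasurableSet B ∧ Measurable f ∧ Measurable g ∧ Measurable h ∧ (∀ x, g (f x) = x) ∧
          (∀ u : B, ∃ e : Str u.1 ≃[L] Str (f (g u)).1, (e : ℕ → ℕ) = h u) ∧
          -- all `f x` are expansions of one fixed tree by unary predicates
          (∀ x, (f x).1 0 = treeRel) ∧
          -- `B` is invariant under isomorphism and consists of rigid models of `T`
          (∀ u v : Code ar, Nonempty (Str u ≃[L] Str v) → u ∈ B → v ∈ B) ∧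
          (∀ u ∈ B, Str u ⊨ T) ∧
          (∀ u ∈ B, ∀ (e : Str u ≃[L] Str u) (a : Str u), e a = a) ∧
          -- every embedding between members of `B` is elementary
          (∀ u ∈ B, ∀ v ∈ B, ∀ (h : Str u ↪[L] Str v) (n : ℕ) (φ : L.Formula (Fin n))
            (a : Fin n → Str u), φ.Realize (h ∘ a) ↔ φ.Realize a) ∧
          -- `g` is a complete invariant for isomorphism on `B`
          (∀ u v : B, Nonempty (Str u.1 ≃[L] Str v.1) ↔ g u = g v) ∧
          -- `R` corresponds to elementary embeddability
          (∀ u v : B, R (g u) (g v) ↔ Nonempty (Str u.1 ↪ₑ[L] Str v.1)) :=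
  ⟨T, T_complete, fun X _ _ R hrefl htrans han => universal X R hrefl htrans han⟩

end Pool.Agent.Results.MP_094aee_lc.OneTheory
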